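import Mathlib

/-!
# Multiplicative relations between Frobenius eigenvalues: finitely many types

The eigenvalues are algebraic numbers which are units outside of `p`, with bounded valuations at the
places above `p`, and with known absolute values. If they are multiplicatively dependent, then there
is a relation with exponents in a finite set which does not depend on `p`.
-/

set_option autoImplicit false

namespace Pool.Agent.R931.IR

open NumberField IsDedekindDomain Polynomial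

section order

theorem dvd_factorial {m D : ℕ} (hm : 0 < m) (h : m.totient ≤ D) : m ∣ (2 * D).factorial := by
  rw [Nat.dvd_iff_prime_pow_dvd_dvd]
  intro p k hp hk
  rcases Nat.eq_zero_or_pos k with rfl | hk0
  · simp
  apply Nat.dvd_factorial (pow_pos hp.pos _)
  have h1 : (p ^ k).totient ∣ m.totient := Nat.totient_dvd_of_dvd hk
  have h2 : (p ^ k).totient ≤ D := (Nat.le_of_dvd (Nat.totient_pos.2 hm) h1).trans h
  rw [Nat.totient_prime_pow hp hk0] at h2
  obtain ⟨j, rfl⟩ : ∃ j, k = j + 1 := ⟨k - 1, by omega⟩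
  rw [Nat.add_sub_cancel] at h2
  have h3 : p ≤ 2 * (p - 1) := by have := hp.two_le; omega
  calc p ^ (j + 1) = p ^ j * p := pow_succ _ _
    _ ≤ p ^ j * (2 * (p - 1)) := Nat.mul_le_mul_left _ h3
    _ = 2 * (p ^ j * (p - 1)) := by ring
    _ ≤ 2 * D := Nat.mul_le_mul_left _ h2

/-- An algebraic integer all of whose conjugates have absolute value one, in a field of degree at
most `D`. -/
theorem pow_factorial_eq_one {K : Type} [Field K] [NumberField K] {D : ℕ}
    (hD : Module.finrank ℚ K ≤ D) {x : K} (hx : IsIntegral ℤ x) (h : ∀ φ : K →+* ℂ, ‖φ x‖ = 1) :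
    x ^ (2 * D).factorial = 1 := by
  obtain ⟨n, hn, hxn⟩ := Embeddings.pow_eq_one_of_norm_eq_one K ℂ hx h
  have hfin : IsOfFinOrder x := isOfFinOrder_iff_pow_eq_one.2 ⟨n, hn, hxn⟩
  have hpr := IsPrimitiveRoot.orderOf x
  have hpos : 0 < orderOf x := hfin.orderOf_pos
  have h1 := hpr.totient_le_degree_minpoly
  have h2 : (minpoly ℤ x).natDegree ≤ D := by
    have h3 := minpoly.isIntegrallyClosed_eq_field_fractions' ℚ hx
    rw [← (minpoly.monic hx).natDegree_map (algebraMap ℤ ℚ), ← h3]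
    exact (minpoly.natDegree_le x).trans hD
  exact orderOf_dvd_iff_pow_eq_one.1 (dvd_factorial hpos (h1.trans h2))

end order

section ord

variable {K : Type} [Field K] [NumberField K]

/-- minus the order of `x` at `v` -/
noncomputable def od (v : HeightOneSpectrum (𝓞 K)) (x : K) : ℤ := WithZero.log (v.valuation K x)

theorem val_ne_zero (v : HeightOneSpectrum (𝓞 K)) {x : K} (hx : x ≠ 0) : v.valuation K x ≠ 0 :=
  (Valuation.ne_zero_iff _).2 hx

theorem od_mul (v : HeightOneSpectrum (𝓞 K)) {x y : K} (hx : x ≠ 0) (hy : y ≠ 0) :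
    od v (x * y) = od v x + od v y := by
  unfold od
  rw [map_mul, WithZero.log_mul (val_ne_zero v hx) (val_ne_zero v hy)]

theorem od_one (v : HeightOneSpectrum (𝓞 K)) : od v (1 : K) = 0 := by
  unfold od
  rw [map_one, WithZero.log_one]

theorem od_pow (v : HeightOneSpectrum (𝓞 K)) {x : K} (hx : x ≠ 0) (n : ℕ) :
    od v (x ^ n) = n * od v x := by
  induction n with
  | zero => simp [od_one]
  | succ n ih => rw [pow_succ, od_mul v (pow_ne_zero _ hx) hx, ih]; push_cast; ring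

theorem od_inv (v : HeightOneSpectrum (𝓞 K)) {x : K} (hx : x ≠ 0) : od v x⁻¹ = - od v x := by
  have h := od_mul v hx (inv_ne_zero hx)
  rw [mul_inv_cancel₀ hx, od_one] at h
  linarith

theorem od_zpow (v : HeightOneSpectrum (𝓞 K)) {x : K} (hx : x ≠ 0) (n : ℤ) :
    od v (x ^ n) = n * od v x := by
  cases n with
  | ofNat n => rw [Int.ofNat_eq_natCast, zpow_natCast, od_pow v hx n]
  | negSucc n =>
    rw [zpow_negSucc, od_inv v (pow_ne_zero _ hx), od_pow v hx]
    push_cast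
    rw [Int.negSucc_eq]
    ring

theorem od_prod (v : HeightOneSpectrum (𝓞 K)) {ι : Type} (s : Finset ι) (x : ι → K)
    (hx : ∀ i, x i ≠ 0) : od v (∏ i ∈ s, x i) = ∑ i ∈ s, od v (x i) := by
  classical
  induction s using Finset.induction_on with
  | empty => rw [Finset.prod_empty, Finset.sum_empty, od_one]
  | insert i s hi ih =>
    rw [Finset.prod_insert hi, Finset.sum_insert hi, od_mul v (hx i)
      (Finset.prod_ne_zero_iff.2 fun j _ => hx j), ih]

theorem od_nonpos (v : HeightOneSpectrum (𝓞 K)) {x : K} (hx : IsIntegral ℤ x) : od v x ≤ 0 := by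
  obtain ⟨y, rfl⟩ : ∃ y : 𝓞 K, algebraMap (𝓞 K) K y = x :=
    ⟨⟨x, hx⟩, rfl⟩
  by_cases hy : algebraMap (𝓞 K) K y = 0
  · unfold od
    rw [hy, map_zero, WithZero.log_zero]
  · unfold od
    have h1 := v.valuation_le_one y (K := K)
    rw [← WithZero.log_one]
    exact (WithZero.log_le_log (val_ne_zero v hy) one_ne_zero).2 h1

theorem isIntegral_of_od {x : K} (hx : x ≠ 0) (h : ∀ v : HeightOneSpectrum (𝓞 K), od v x = 0) :
    IsIntegral ℤ x := by
  have h1 : ∀ v : HeightOneSpectrum (𝓞 K), v.valuation K x ≤ 1 := by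
    intro v
    have h2 := h v
    unfold od at h2
    rw [← WithZero.log_one] at h2
    exact ((WithZero.log_le_log (val_ne_zero v hx) one_ne_zero).1 h2.le)
  obtain ⟨y, hy⟩ := HeightOneSpectrum.mem_integers_of_valuation_le_one K x h1
  rw [← hy]
  exact y.2

/-- the order of `p` is at most the degree -/
theorem od_prime (v : HeightOneSpectrum (𝓞 K)) {p : ℕ} (hp : p.Prime) :
    -(Module.finrank ℚ K : ℤ) ≤ od v (p : K) := by
  have hp0 : (p : K) ≠ 0 := Nat.cast_ne_zero.2 hp.ne_zero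
  have hint : IsIntegral ℤ (p : K) := by
    have h : IsIntegral ℤ (algebraMap ℤ K (p : ℤ)) := isIntegral_algebraMap
    simpa using h
  have h0 := od_nonpos v hint
  obtain ⟨n, hn⟩ : ∃ n : ℕ, od v (p : K) = -(n : ℤ) := ⟨(-od v (p : K)).toNat, by omega⟩
  rw [hn]
  rcases Nat.eq_zero_or_pos n with rfl | hn0
  · omega
  have h1 : v.valuation K (p : K) = WithZero.exp (-(n : ℤ)) := by
    unfold od at hn
    rw [← hn, WithZero.exp_log (val_ne_zero v hp0)]
  have h2 : v.intValuation (p : 𝓞 K) ≤ WithZero.exp (-(n : ℤ)) := by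
    rw [← h1, ← v.valuation_of_algebraMap (K := K)]
    simp
  rw [HeightOneSpectrum.intValuation_le_pow_iff_dvd] at h2
  have h3 := Ideal.absNorm_dvd_absNorm_of_le (Ideal.le_of_dvd h2)
  rw [map_pow, Ideal.absNorm_span_natCast] at h3
  have h4 : Ideal.absNorm v.asIdeal ∣ p ^ Module.finrank ℤ (𝓞 K) :=
    (dvd_pow_self _ (by omega)).trans h3
  obtain ⟨f, hf, hfe⟩ := (Nat.dvd_prime_pow hp).1 h4
  have hf0 : f ≠ 0 := by
    rintro rfl
    rw [pow_zero, Ideal.absNorm_eq_one_iff] at hfe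
    exact v.isPrime.ne_top hfe
  rw [hfe, ← pow_mul, Nat.pow_dvd_pow_iff_le_right hp.one_lt, RingOfIntegers.rank] at h3
  have h5 : n ≤ f * n := Nat.le_mul_of_pos_left n (Nat.pos_of_ne_zero hf0)
  omega

end ord

section rel

/-- the exponents chosen for a set of rows -/
noncomputable def ex {r : ℕ} (w : Fin r → ℤ) (R : Finset (Fin r → ℤ)) : Fin r → ℤ :=
  open scoped Classical in
  if h : ∃ e : Fin r → ℤ, e ≠ 0 ∧ (∀ ρ ∈ R, ∑ k, e k * ρ k = 0) ∧ ∑ k, e k * w k = 0 then h.choose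
  else 0

/-- the finite set of exponents -/
noncomputable def exs {r : ℕ} (w : Fin r → ℤ) (B : ℤ) : Finset (Fin r → ℤ) :=
  ((Fintype.piFinset fun _ : Fin r => Finset.Icc (-B) B).powerset.image (ex w)).erase 0

theorem zero_notMem_exs {r : ℕ} (w : Fin r → ℤ) (B : ℤ) : (0 : Fin r → ℤ) ∉ exs w B :=
  Finset.notMem_erase _ _

theorem zpow_sum {G : Type} [Field G] {ι : Type} (x : G) (hx : x ≠ 0) (s : Finset ι) (f : ι → ℤ) :
    x ^ (∑ i ∈ s, f i) = ∏ i ∈ s, x ^ f i := by
  classical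
  induction s using Finset.induction_on with
  | empty => simp
  | insert i s hi ih => rw [Finset.sum_insert hi, Finset.prod_insert hi, zpow_add₀ hx, ih]

theorem norm_relation {K : Type} [Field K] {r : ℕ} {w : Fin r → ℤ} {p : ℕ} (hp : p.Prime)
    {a : Fin r → K} (φ : K →+* ℂ) (hφ : ∀ k, ‖φ (a k)‖ ^ 2 = (p : ℝ) ^ w k) (e : Fin r → ℤ) :
    ‖φ (∏ k, a k ^ e k)‖ ^ 2 = (p : ℝ) ^ (∑ k, e k * w k) := by
  have hp0 : (p : ℝ) ≠ 0 := Nat.cast_ne_zero.2 hp.ne_zero
  rw [map_prod, norm_prod, ← Finset.prod_pow, zpow_sum _ hp0]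
  refine Finset.prod_congr rfl fun k _ => ?_
  rw [map_zpow₀, norm_zpow, mul_comm (e k), zpow_mul, ← hφ k, ← zpow_natCast, ← zpow_natCast,
    ← zpow_mul, ← zpow_mul, mul_comm (e k)]

/-- In a number field of degree at most `D`: if numbers with bounded valuations and given absolute
values are multiplicatively dependent, they satisfy one of finitely many relations. -/
theorem relation_nf {r : ℕ} (w : Fin r → ℤ) (B : ℤ) {D : ℕ} {K : Type} [Field K] [NumberField K]
    (hD : Module.finrank ℚ K ≤ D) {p : ℕ} (hp : p.Prime) {a : Fin r → K} (ha : ∀ k, a k ≠ 0)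
    (hB : ∀ (v : HeightOneSpectrum (𝓞 K)) k, -B ≤ od v (a k) ∧ od v (a k) ≤ B)
    (hφ : ∀ (φ : K →+* ℂ) k, ‖φ (a k)‖ ^ 2 = (p : ℝ) ^ w k)
    (hdep : ∃ e : Fin r → ℤ, e ≠ 0 ∧ ∏ k, a k ^ e k = 1) :
    ∃ e ∈ exs w B, (∏ k, a k ^ e k) ^ (2 * D).factorial = 1 := by
  classical
  have hp1 : (1 : ℝ) < p := by exact_mod_cast hp.one_lt
  have hp0 : (p : ℝ) ≠ 0 := by positivity
  have hnz : ∀ e : Fin r → ℤ, ∏ k, a k ^ e k ≠ 0 := fun e =>
    Finset.prod_ne_zero_iff.2 fun k _ => zpow_ne_zero _ (ha k)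
  have hod : ∀ (v : HeightOneSpectrum (𝓞 K)) (e : Fin r → ℤ),
      od v (∏ k, a k ^ e k) = ∑ k, e k * od v (a k) := by
    intro v e
    rw [od_prod v _ _ fun k => zpow_ne_zero _ (ha k)]
    exact Finset.sum_congr rfl fun k _ => od_zpow v (ha k) _
  set R : Finset (Fin r → ℤ) := (Fintype.piFinset fun _ : Fin r => Finset.Icc (-B) B).filter
    fun ρ => ∃ v : HeightOneSpectrum (𝓞 K), ρ = fun k => od v (a k) with hR
  have hRv : ∀ v : HeightOneSpectrum (𝓞 K), (fun k => od v (a k)) ∈ R := by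
    intro v
    rw [hR, Finset.mem_filter, Fintype.mem_piFinset]
    exact ⟨fun k => Finset.mem_Icc.2 (hB v k), v, rfl⟩
  have hex : ∃ e : Fin r → ℤ, e ≠ 0 ∧ (∀ ρ ∈ R, ∑ k, e k * ρ k = 0) ∧ ∑ k, e k * w k = 0 := by
    obtain ⟨e, he, h1⟩ := hdep
    refine ⟨e, he, ?_, ?_⟩
    · intro ρ hρ
      obtain ⟨v, rfl⟩ := (Finset.mem_filter.1 hρ).2
      rw [← hod v e, h1, od_one]
    · obtain ⟨φ⟩ : Nonempty (K →+* ℂ) := inferInstance
      have h2 := norm_relation hp φ (hφ φ) e
      rw [h1, map_one, norm_one, one_pow] at h2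
      exact (zpow_right_injective₀ (by linarith) hp1.ne' (h2.symm.trans (zpow_zero _).symm))
  have hexw : ex w R = hex.choose := by
    unfold ex
    rw [dif_pos hex]
  obtain ⟨h1, h2, h3⟩ := hex.choose_spec
  rw [← hexw] at h1 h2 h3
  refine ⟨ex w R, ?_, ?_⟩
  · rw [exs, Finset.mem_erase]
    refine ⟨h1, Finset.mem_image.2 ⟨R, ?_, rfl⟩⟩
    exact Finset.mem_powerset.2 (Finset.filter_subset _ _)
  · apply pow_factorial_eq_one hD
    · apply isIntegral_of_od (hnz _)
      intro v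
      rw [hod]
      exact h2 _ (hRv v)
    · intro φ
      have h4 := norm_relation hp φ (hφ φ) (ex w R)
      rw [h3, zpow_zero] at h4
      have h5 : 0 ≤ ‖φ (∏ k, a k ^ ex w R k)‖ := norm_nonneg _
      nlinarith [h4, h5]

theorem finrank_adjoin_range {r : ℕ} (a : Fin r → ℂ) {D : ℕ}
    (h : ∀ k, ∃ P : ℚ[X], P ≠ 0 ∧ P.natDegree ≤ D ∧ aeval (a k) P = 0) (s : Finset (Fin r)) :
    FiniteDimensional ℚ (IntermediateField.adjoin ℚ (a '' s)) ∧
      Module.finrank ℚ (IntermediateField.adjoin ℚ (a '' s)) ≤ D ^ s.card := by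
  classical
  induction s using Finset.induction_on with
  | empty =>
    rw [Finset.coe_empty, Set.image_empty, IntermediateField.adjoin_empty]
    refine ⟨inferInstance, ?_⟩
    simp
  | insert k s hk ih =>
    obtain ⟨P, hP, hdeg, hroot⟩ := h k
    have h1 : IntermediateField.adjoin ℚ (a '' ((insert k s : Finset (Fin r)) : Set (Fin r))) =
        IntermediateField.adjoin ℚ {a k} ⊔ IntermediateField.adjoin ℚ (a '' s) := by
      rw [Finset.coe_insert, Set.image_insert_eq, Set.insert_eq, IntermediateField.adjoin_union]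
    have halg : IsIntegral ℚ (a k) := isAlgebraic_iff_isIntegral.1 ⟨P, hP, hroot⟩
    have h2 : FiniteDimensional ℚ (IntermediateField.adjoin ℚ {a k}) :=
      IntermediateField.adjoin.finiteDimensional halg
    have h3 : Module.finrank ℚ (IntermediateField.adjoin ℚ {a k}) ≤ D := by
      rw [IntermediateField.adjoin.finrank halg]
      exact (Polynomial.natDegree_le_of_dvd (minpoly.dvd ℚ _ hroot) hP).trans hdeg
    rw [h1]
    have := ih.1
    refine ⟨inferInstance, ?_⟩
    refine (IntermediateField.finrank_sup_le _ _).trans ?_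
    rw [Finset.card_insert_of_notMem hk, pow_succ']
    exact Nat.mul_le_mul h3 ih.2

/-- the bound for the valuations -/
def bd {r : ℕ} (w : Fin r → ℤ) (c D : ℕ) : ℤ := (D ^ r : ℕ) * ((c : ℤ) + ∑ k, |w k|)

/-- **Finitely many types of relations.** -/
theorem relation_complex {r : ℕ} (w : Fin r → ℤ) (c : ℕ) {D : ℕ} {p : ℕ}
    (hp : p.Prime) (P : Fin r → ℚ[X]) (a : Fin r → ℂ)
    (hP : ∀ k, P k ≠ 0 ∧ (P k).natDegree ≤ D)
    (hpure : ∀ k, ∀ b : ℂ, aeval b (P k) = 0 → ‖b‖ ^ 2 = (p : ℝ) ^ w k)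
    (hint : ∀ k, ∀ b : ℂ, aeval b (P k) = 0 → IsIntegral ℤ ((p : ℂ) ^ c * b))
    (ha : ∀ k, aeval (a k) (P k) = 0)
    (hdep : ∃ e : Fin r → ℤ, e ≠ 0 ∧ ∏ k, a k ^ e k = 1) :
    ∃ e ∈ exs w (bd w c D), (∏ k, a k ^ e k) ^ (2 * D ^ r).factorial = 1 := by
  have hp0 : (p : ℝ) ≠ 0 := Nat.cast_ne_zero.2 hp.ne_zero
  have hpC : (p : ℂ) ≠ 0 := Nat.cast_ne_zero.2 hp.ne_zero
  have ha0 : ∀ k, a k ≠ 0 := by
    intro k h
    have h1 := hpure k _ (ha k)
    rw [h, norm_zero, zero_pow two_ne_zero] at h1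
    exact zpow_ne_zero _ hp0 h1.symm
  obtain ⟨hfd, hfr⟩ := finrank_adjoin_range a
    (fun k => ⟨P k, (hP k).1, (hP k).2, ha k⟩) Finset.univ
  rw [Finset.card_univ, Fintype.card_fin] at hfr
  set K := IntermediateField.adjoin ℚ (a '' ((Finset.univ : Finset (Fin r)) : Set (Fin r))) with hK
  have : NumberField K := ⟨⟩
  let α : Fin r → K := fun k => ⟨a k, IntermediateField.subset_adjoin ℚ _
    ⟨k, Finset.mem_coe.2 (Finset.mem_univ k), rfl⟩⟩
  have hα : ∀ k, algebraMap K ℂ (α k) = a k := fun k => rfl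
  have hα0 : ∀ k, α k ≠ 0 := fun k h => ha0 k (by rw [← hα, h, map_zero])
  have hprod : ∀ e : Fin r → ℤ, algebraMap K ℂ (∏ k, α k ^ e k) = ∏ k, a k ^ e k := by
    intro e
    rw [map_prod]
    exact Finset.prod_congr rfl fun k _ => by rw [map_zpow₀, hα]
  have hinjint : ∀ x : K, IsIntegral ℤ (algebraMap K ℂ x) → IsIntegral ℤ x := by
    intro x hx
    exact (isIntegral_algHom_iff ((algebraMap K ℂ).toIntAlgHom) (algebraMap K ℂ).injective).1 hx
  have hroot : ∀ (φ : K →+* ℂ) k, aeval (φ (α k)) (P k) = 0 := by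
    intro φ k
    have h1 : aeval (α k) (P k) = 0 := by
      apply (algebraMap K ℂ).injective
      rw [map_zero, ← ha k, ← hα k, aeval_algebraMap_apply]
    have h2 := congrArg φ.toRatAlgHom h1
    rw [map_zero, ← aeval_algHom_apply] at h2
    exact h2
  have hpK : (p : K) ≠ 0 := Nat.cast_ne_zero.2 hp.ne_zero
  have hB : ∀ (v : HeightOneSpectrum (𝓞 K)) k, -bd w c D ≤ od v (α k) ∧ od v (α k) ≤ bd w c D := by
    intro v k
    have h1 : od v (p : K) ≤ 0 := by
      apply od_nonpos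
      have h : IsIntegral ℤ (algebraMap ℤ K (p : ℤ)) := isIntegral_algebraMap
      simpa using h
    have h2 := od_prime v hp (K := K)
    have h3 : -((D ^ r : ℕ) : ℤ) ≤ od v (p : K) := by
      have : ((Module.finrank ℚ K : ℕ) : ℤ) ≤ ((D ^ r : ℕ) : ℤ) := by exact_mod_cast hfr
      linarith
    have h4 : (c : ℤ) * od v (p : K) + od v (α k) ≤ 0 := by
      rw [← od_pow v hpK, ← od_mul v (pow_ne_zero _ hpK) (hα0 k)]
      apply od_nonpos
      apply hinjint
      rw [map_mul, map_pow, map_natCast, hα]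
      exact hint k _ (ha k)
    have h5 : (c : ℤ) * od v (p : K) + (w k * od v (p : K) - od v (α k)) ≤ 0 := by
      rw [sub_eq_add_neg, ← od_inv v (hα0 k), ← od_pow v hpK, ← od_zpow v hpK,
        ← od_mul v (zpow_ne_zero _ hpK) (inv_ne_zero (hα0 k)),
        ← od_mul v (pow_ne_zero _ hpK) (mul_ne_zero (zpow_ne_zero _ hpK) (inv_ne_zero (hα0 k)))]
      apply od_nonpos
      apply hinjint
      rw [map_mul, map_pow, map_natCast, map_mul, map_zpow₀, map_natCast, map_inv₀, hα]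
      have h6 : (p : ℂ) ^ w k * (a k)⁻¹ = (starRingEnd ℂ) (a k) := by
        have h7 := hpure k _ (ha k)
        have h8 : a k * (starRingEnd ℂ) (a k) = (p : ℂ) ^ w k := by
          rw [Complex.mul_conj, Complex.normSq_eq_norm_sq, h7]
          push_cast
          rfl
        rw [← h8]
        field_simp [ha0 k]
      rw [h6]
      apply hint k
      have h9 := congrArg (starRingEnd ℂ).toRatAlgHom (ha k)
      rw [map_zero, ← aeval_algHom_apply] at h9
      exact h9
    have h6 : |w k| ≤ ∑ k, |w k| :=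
      Finset.single_le_sum (f := fun k => |w k|) (fun k _ => abs_nonneg _) (Finset.mem_univ k)
    have h7 := abs_le.1 (le_refl |w k|)
    have h8 : (0 : ℤ) ≤ c := Int.natCast_nonneg c
    have hDr : (0 : ℤ) ≤ ((D ^ r : ℕ) : ℤ) := Int.natCast_nonneg _
    unfold bd
    set x := od v (p : K)
    set y := od v (α k)
    set N : ℤ := ((D ^ r : ℕ) : ℤ)
    set s : ℤ := ∑ k, |w k|
    constructor
    · nlinarith
    · nlinarith
  have hdep' : ∃ e : Fin r → ℤ, e ≠ 0 ∧ ∏ k, α k ^ e k = 1 := by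
    obtain ⟨e, he, h1⟩ := hdep
    refine ⟨e, he, (algebraMap K ℂ).injective ?_⟩
    rw [hprod, h1, map_one]
  obtain ⟨e, he, hrel⟩ := relation_nf w (bd w c D) hfr hp hα0 hB
    (fun φ k => hpure k _ (hroot φ k)) hdep'
  refine ⟨e, he, ?_⟩
  rw [← hprod, ← map_pow, hrel, map_one]

end rel

end Pool.Agent.R931.IR
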