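import Pool.Agent.R931.IR.Near
import Pool.Agent.R931.IR.Rel
import Pool.Agent.Y405.ZO.Frob
import Pool.Agent.Y114.RM.Final

/-!
# Frobenius elements with violated relations
-/

set_option autoImplicit false

namespace Pool.Agent.R931.IR

open NumberField IsDedekindDomain Polynomial Module Topology Pool.Agent.Y114.TF Pool.Agent.Y114.GF
  Pool.Agent.Y114.MU Pool.Agent.Y114.RM

variable {F : Type} [Field F] [NumberField F] {ι : Type} {n : ι → ℕ} {ℓ : ℕ} [Fact ℓ.Prime]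

theorem root_ne_zero {m : ℕ} {A B : End ℚ_[ℓ] (Fin m → ℚ_[ℓ])} (h : A * B = 1) {z : PadicAlgCl ℓ}
    (hz : IsRootOf A.charpoly z) : z ≠ 0 := by
  rintro rfl
  have h1 : LinearMap.det A ≠ 0 := by
    intro h2
    have h3 := congrArg LinearMap.det h
    rw [map_mul, h2, zero_mul, map_one] at h3
    exact zero_ne_one h3
  rw [LinearMap.det_eq_sign_charpoly_coeff] at h1
  apply h1
  have h2 : algebraMap ℚ_[ℓ] (PadicAlgCl ℓ) (A.charpoly.coeff 0) = 0 := by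
    unfold IsRootOf at hz
    rwa [aeval_def, eval₂_at_zero] at hz
  have h3 : A.charpoly.coeff 0 = 0 :=
    (algebraMap ℚ_[ℓ] (PadicAlgCl ℓ)).injective (by rw [h2, map_zero])
  rw [h3, mul_zero]

theorem continuous_eval {Γ : Type} [Group Γ] [TopologicalSpace Γ] {m : ℕ}
    (ρ : Representation ℚ_[ℓ] Γ (Fin m → ℚ_[ℓ])) (hρ : Continuous fun g => LinearMap.toMatrix' (ρ g))
    (z : PadicAlgCl ℓ) : Continuous fun g => ‖aeval z (ρ g).charpoly‖ := by
  apply Continuous.norm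
  have h : (fun g => aeval z (ρ g).charpoly) = fun g => (Matrix.scalar (Fin m) z -
      (LinearMap.toMatrix' (ρ g)).map (algebraMap ℚ_[ℓ] (PadicAlgCl ℓ))).det := by
    funext g
    exact eval_eq_det _ _
  rw [h]
  apply Continuous.matrix_det
  apply continuous_const.sub
  exact hρ.matrix_map (continuous_algebraMap ℚ_[ℓ] (PadicAlgCl ℓ))

/-- Near a group element with multiplicatively independent eigenvalues there are Frobenius elements
with eigenvalues which satisfy none of finitely many relations. -/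
theorem exists_place (ρ : Reps Gal(AlgebraicClosure F/F) n ℓ) (hρ : Conts ρ)
    (σ : Gal(AlgebraicClosure F/F)) {r : ℕ} (κ : Fin r → ι) (z : Fin r → PadicAlgCl ℓ)
    (hz : ∀ k, IsRootOf (ρ (κ k) σ).charpoly (z k))
    (hind : ∀ e : Fin r → ℤ, ∏ k, z k ^ e k = 1 → e = 0) (E : Finset (Fin r → ℤ))
    (h0 : (0 : Fin r → ℤ) ∉ E) {M : ℕ} (hM : 0 < M) (U : Set Gal(AlgebraicClosure F/F))
    (hU : IsOpen U) (hσ : σ ∈ U) (T : Set (HeightOneSpectrum (𝓞 F))) (hT : T.Finite) :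
    ∃ v, v ∉ T ∧ ∃ (Q : Ideal (𝓞 (AlgebraicClosure F))) (φ : Gal(AlgebraicClosure F/F)),
      PrimeOver Q v ∧ IsFrobAt Q (q v) φ ∧ φ⁻¹ ∈ U ∧ ∃ y : Fin r → PadicAlgCl ℓ,
        (∀ k, IsRootOf (ρ (κ k) φ⁻¹).charpoly (y k)) ∧ ∀ e ∈ E, (∏ k, y k ^ e k) ^ M ≠ 1 := by
  have hz0 : ∀ k, z k ≠ 0 := fun k => root_ne_zero (A := ρ (κ k) σ) (B := ρ (κ k) σ⁻¹) (by
    rw [← map_mul, mul_inv_cancel, map_one]) (hz k)
  obtain ⟨ε, hε, hrad⟩ := exists_radius z hz0 hind E h0 hM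
  let O : Set Gal(AlgebraicClosure F/F) :=
    U ∩ ⋂ k, {g | ‖aeval (z k) (ρ (κ k) g).charpoly‖ < ε ^ n (κ k)}
  have hO : IsOpen O := by
    apply hU.inter
    apply isOpen_iInter_of_finite
    intro k
    exact isOpen_lt (continuous_eval (ρ (κ k)) (hρ (κ k)) (z k)) continuous_const
  have hσO : σ ∈ O := by
    refine ⟨hσ, Set.mem_iInter.2 fun k => ?_⟩
    show ‖aeval (z k) (ρ (κ k) σ).charpoly‖ < ε ^ n (κ k)
    have h1 : aeval (z k) (ρ (κ k) σ).charpoly = 0 := hz k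
    rw [h1, norm_zero]
    positivity
  obtain ⟨v, hv, φ, ⟨Q, hQ, hQv, hφ⟩, hφO⟩ := Pool.Agent.Y405.ZO.t F O hO ⟨σ, hσO⟩ T hT
  refine ⟨v, hv, Q, φ, ⟨hQ.isPrime, hQv⟩, hφ, hφO.1, ?_⟩
  have h1 : ∀ k, ∃ y : PadicAlgCl ℓ, IsRootOf (ρ (κ k) φ⁻¹).charpoly y ∧ ‖y - z k‖ < ε := fun k =>
    exists_root_near _ (z k) hε (Set.mem_iInter.1 hφO.2 k)
  choose y hy hyz using h1
  exact ⟨y, hy, hrad y hyz⟩

end Pool.Agent.R931.IR
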