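import Mathlib

/-!
# The finite places of `ℚ`
-/

set_option autoImplicit false

namespace Pool.Agent.R931.IR

open NumberField IsDedekindDomain

theorem maximal_span {p : ℕ} (hp : p.Prime) : (Ideal.span {(p : 𝓞 ℚ)}).IsMaximal := by
  have : Fact p.Prime := ⟨hp⟩
  have h1 : (Ideal.span {(p : ℤ)}).IsMaximal := Int.ideal_span_isMaximal_of_prime p
  have h2 := Ideal.map_isMaximal_of_equiv Rat.ringOfIntegersEquiv.symm (p := Ideal.span {(p : ℤ)})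
  rw [Ideal.map_span, Set.image_singleton, map_natCast] at h2
  exact h2

theorem asIdeal_eq {p : ℕ} (hp : p.Prime) {v : HeightOneSpectrum (𝓞 ℚ)}
    (hv : (p : 𝓞 ℚ) ∈ v.asIdeal) : v.asIdeal = Ideal.span {(p : 𝓞 ℚ)} := by
  have h1 := maximal_span hp
  exact (h1.eq_of_le v.isPrime.ne_top ((Ideal.span_singleton_le_iff_mem _).2 hv)).symm

theorem above_iff {p : ℕ} (hp : p.Prime) {v₀ : HeightOneSpectrum (𝓞 ℚ)}
    (hv₀ : (p : 𝓞 ℚ) ∈ v₀.asIdeal) (v : HeightOneSpectrum (𝓞 ℚ)) :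
    (p : 𝓞 ℚ) ∈ v.asIdeal ↔ v = v₀ := by
  refine ⟨fun h => ?_, fun h => h ▸ hv₀⟩
  apply HeightOneSpectrum.ext
  rw [asIdeal_eq hp h, asIdeal_eq hp hv₀]

theorem exists_above {p : ℕ} (hp : p.Prime) :
    ∃ v : HeightOneSpectrum (𝓞 ℚ), (p : 𝓞 ℚ) ∈ v.asIdeal := by
  refine ⟨⟨Ideal.span {(p : 𝓞 ℚ)}, (maximal_span hp).isPrime, ?_⟩,
    Ideal.mem_span_singleton_self _⟩
  rw [Ne, Ideal.span_singleton_eq_bot]
  exact Nat.cast_ne_zero.2 hp.ne_zero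

theorem unramified {p : ℕ} (hp : p.Prime) {v : HeightOneSpectrum (𝓞 ℚ)}
    (hv : (p : 𝓞 ℚ) ∈ v.asIdeal) : (p : 𝓞 ℚ) ∉ v.asIdeal ^ 2 := by
  rw [asIdeal_eq hp hv, Ideal.span_singleton_pow, Ideal.mem_span_singleton]
  rintro ⟨x, hx⟩
  have hp0 : (p : 𝓞 ℚ) ≠ 0 := Nat.cast_ne_zero.2 hp.ne_zero
  have h1 : (p : 𝓞 ℚ) * x = 1 := by
    apply mul_left_cancel₀ hp0
    rw [mul_one, ← mul_assoc, ← sq, ← hx]
  have h2 : IsUnit (p : 𝓞 ℚ) := IsUnit.of_mul_eq_one x h1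
  have h3 := (maximal_span hp).ne_top
  exact h3 (Ideal.span_singleton_eq_top.2 h2)

theorem absNorm_eq {p : ℕ} (hp : p.Prime) {v : HeightOneSpectrum (𝓞 ℚ)}
    (hv : (p : 𝓞 ℚ) ∈ v.asIdeal) : Ideal.absNorm v.asIdeal = p := by
  rw [asIdeal_eq hp hv, Ideal.absNorm_span_natCast, RingOfIntegers.rank, Module.finrank_self,
    pow_one]

theorem exists_prime (v : HeightOneSpectrum (𝓞 ℚ)) : ∃ p : ℕ, p.Prime ∧ (p : 𝓞 ℚ) ∈ v.asIdeal := by
  have h0 : Ideal.absNorm v.asIdeal ≠ 0 := by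
    rw [Ne, Ideal.absNorm_eq_zero_iff]
    exact v.ne_bot
  have h1 : Ideal.absNorm v.asIdeal ≠ 1 := by
    rw [Ne, Ideal.absNorm_eq_one_iff]
    exact v.isPrime.ne_top
  have h2 : ((Ideal.absNorm v.asIdeal : ℕ) : 𝓞 ℚ) ∈ v.asIdeal := Ideal.absNorm_mem v.asIdeal
  have h3 : ∀ m : ℕ, m ≠ 0 → (m : 𝓞 ℚ) ∈ v.asIdeal → ∃ p : ℕ, p.Prime ∧ (p : 𝓞 ℚ) ∈ v.asIdeal := by
    intro m
    induction m using Nat.recOnMul with
    | zero => intro h; exact absurd rfl h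
    | one =>
      intro _ h
      rw [Nat.cast_one] at h
      exact absurd ((Ideal.eq_top_iff_one _).2 h) v.isPrime.ne_top
    | prime p hp => intro _ h; exact ⟨p, hp, h⟩
    | mul a b iha ihb =>
      intro hab h
      rw [Nat.cast_mul] at h
      rcases v.isPrime.mem_or_mem h with h | h
      · exact iha (left_ne_zero_of_mul hab) h
      · exact ihb (right_ne_zero_of_mul hab) h
  exact h3 _ h0 h2

/-- the set of the primes below a finite set of places is finite -/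
theorem finite_below (S : Set (HeightOneSpectrum (𝓞 ℚ))) (hS : S.Finite) :
    {p : ℕ | p.Prime ∧ ∃ v ∈ S, (p : 𝓞 ℚ) ∈ v.asIdeal}.Finite := by
  refine (hS.image fun v => Ideal.absNorm v.asIdeal).subset ?_
  rintro p ⟨hp, v, hv, hpv⟩
  exact ⟨v, hv, absNorm_eq hp hpv⟩

end Pool.Agent.R931.IR
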