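import Pool.Agent.R931.IR.Defs
import Pool.Agent.R931.IR.Frob
import Pool.Agent.R931.IR.RatPlace
import Pool.Agent.R931.IR.Semi

/-!
# From one element of the image to one place, and to all primes
-/

set_option autoImplicit false

namespace Pool.Agent.R931.IR

open NumberField IsDedekindDomain Polynomial Module Pool.Agent.Y114.TF Pool.Agent.Y114.GF
  Pool.Agent.Y114.MU Pool.Agent.Y114.RM Pool.Agent.H204R3.GP

theorem exists_emb (ℓ : ℕ) [Fact ℓ.Prime] : Nonempty (PadicAlgCl ℓ →+* ℂ) := by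
  obtain ⟨j, -⟩ := Pool.Agent.Y115.R.exists_j ℓ ℚ_[ℓ] ℚ (algebraMap ℚ ℚ_[ℓ]) (algebraMap ℚ ℂ)
  let _ : Algebra ℚ_[ℓ] ℂ := j.toAlgebra
  exact ⟨(IsAlgClosed.lift : PadicAlgCl ℓ →ₐ[ℚ_[ℓ]] ℂ).toRingHom⟩

/-- The polynomials at good places. -/
theorem good_poly {ι : Type} {n : ι → ℕ} {ℓ : ℕ} [Fact ℓ.Prime]
    {ρ : Reps Gal(AlgebraicClosure ℚ/ℚ) n ℓ} {i : ι} {w : ℤ} {v : HeightOneSpectrum (𝓞 ℚ)} {P : ℚ[X]}
    (h : GoodReduction ρ i w v P) : P ≠ 0 ∧ P.natDegree = n i := by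
  obtain ⟨Q, σ, hQ, hQv, hσ⟩ := Pool.Agent.W571.FM.frob_cm v
  have h1 : (ρ i σ⁻¹).charpoly = P.map (algebraMap ℚ ℚ_[ℓ]) := (h.2 Q ⟨hQ.isPrime, hQv⟩ σ).2 hσ
  have h2 : (P.map (algebraMap ℚ ℚ_[ℓ])).Monic := h1 ▸ LinearMap.charpoly_monic _
  have h3 : (P.map (algebraMap ℚ ℚ_[ℓ])).natDegree = n i := by
    rw [← h1, LinearMap.charpoly_natDegree, Module.finrank_fin_fun]
  rw [natDegree_map] at h3
  refine ⟨?_, h3⟩
  rintro rfl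
  rw [Polynomial.map_zero] at h2
  exact not_monic_zero h2

/-- One place with independent Frobenius eigenvalues. -/
theorem exists_indep {ι : Type} [Fintype ι] {n : ι → ℕ} {ℓ : ℕ} [Fact ℓ.Prime]
    (ρ : Reps Gal(AlgebraicClosure ℚ/ℚ) n ℓ) (hρ : Conts ρ) (w : ι → ℤ) (c : ℕ)
    (S : Set (HeightOneSpectrum (𝓞 ℚ))) (hS : S.Finite)
    (P : HeightOneSpectrum (𝓞 ℚ) → ι → ℚ[X])
    (hP : ∀ v ∉ S, ∀ i, GoodReduction ρ i (w i) v (P v i) ∧ IntegralRoots c v (P v i))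
    (σ : Gal(AlgebraicClosure ℚ/ℚ)) (r : ℕ) (hσ : IndependentEigenvalues ρ σ r)
    (U : Set Gal(AlgebraicClosure ℚ/ℚ)) (hU : IsOpen U) (hσU : σ ∈ U) :
    ∃ v, v ∉ S ∧ IndepRoots r (Set.range (P v)) ∧
      ∃ (Q : Ideal (𝓞 (AlgebraicClosure ℚ))) (φ : Gal(AlgebraicClosure ℚ/ℚ)),
        PrimeOver Q v ∧ IsFrobAt Q (q v) φ ∧ φ⁻¹ ∈ U := by
  obtain ⟨κ, z, hz, hind⟩ := hσ
  obtain ⟨v, hv, Q, φ, hQ, hφ, hφU, y, hy, hyE⟩ := exists_place ρ hρ σ κ z hz hind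
    (exs (fun k => w (κ k)) (bd (fun k => w (κ k)) c (∑ i, n i)))
    (zero_notMem_exs _ _) (M := (2 * (∑ i, n i) ^ r).factorial) (Nat.factorial_pos _) U hU hσU S hS
  refine ⟨v, hv, ?_, Q, φ, hQ, hφ, hφU⟩
  obtain ⟨j⟩ := exists_emb ℓ
  obtain ⟨p, hp, hpv⟩ := exists_prime v
  have hq : q v = p := absNorm_eq hp hpv
  have hroot : ∀ k, aeval (j (y k)) (P v (κ k)) = 0 := by
    intro k
    have h1 : (ρ (κ k) φ⁻¹).charpoly = (P v (κ k)).map (algebraMap ℚ ℚ_[ℓ]) :=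
      ((hP v hv (κ k)).1.2 Q hQ φ).2 hφ
    have h2 : aeval (y k) (ρ (κ k) φ⁻¹).charpoly = 0 := hy k
    rw [h1, aeval_map_algebraMap] at h2
    have h3 := congrArg j.toRatAlgHom h2
    rw [map_zero, ← aeval_algHom_apply] at h3
    exact h3
  refine ⟨fun k => j (y k), fun k => ⟨P v (κ k), ⟨κ k, rfl⟩, hroot k⟩, fun e he => ?_⟩
  by_contra hne
  obtain ⟨e', he', hrel⟩ := relation_complex (fun k => w (κ k)) c (D := ∑ i, n i) hp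
    (fun k => P v (κ k)) (fun k => j (y k))
    (fun k => ⟨(good_poly (hP v hv (κ k)).1).1, by
      rw [(good_poly (hP v hv (κ k)).1).2]
      exact Finset.single_le_sum (f := n) (fun _ _ => Nat.zero_le _) (Finset.mem_univ _)⟩)
    (fun k b hb => by
      have h1 := (hP v hv (κ k)).1.1 b (by
        rw [mem_aroots]
        exact ⟨(good_poly (hP v hv (κ k)).1).1, hb⟩)
      rw [hq] at h1
      exact h1)
    (fun k b hb => by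
      have h1 := (hP v hv (κ k)).2 b hb
      rw [hq] at h1
      exact h1)
    hroot ⟨e, hne, he⟩
  apply hyE e' he'
  apply j.injective
  rw [map_one, map_pow, map_prod, ← hrel]
  congr 1
  exact Finset.prod_congr rfl fun k _ => by rw [map_zpow₀]

theorem notAbove_of_ne {v : HeightOneSpectrum (𝓞 ℚ)} {p ℓ : ℕ} (hp : p.Prime) (hℓ : ℓ.Prime)
    (hne : p ≠ ℓ) (hv : Above v p) : ¬ Above v ℓ := by
  intro h
  have h1 := absNorm_eq hp hv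
  rw [absNorm_eq hℓ h] at h1
  exact hne h1.symm

theorem finite_above (ℓ : ℕ) (hℓ : ℓ.Prime) :
    {v : HeightOneSpectrum (𝓞 ℚ) | Above v ℓ}.Finite := by
  obtain ⟨v₀, hv₀⟩ := exists_above hℓ
  apply (Set.finite_singleton v₀).subset
  intro v hv
  exact (above_iff hℓ hv₀ v).1 hv

section main

variable {Γ : Type} [Group Γ] [TopologicalSpace Γ] [IsTopologicalGroup Γ] [CompactSpace Γ]

theorem main (s : Gal(AlgebraicClosure ℚ/ℚ) →* Γ) (hs : Continuous s)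
    {ι : Type} [Fintype ι] [DecidableEq ι] {n : ι → ℕ} (w : ι → ℤ) (c : ℕ)
    (S : Set (HeightOneSpectrum (𝓞 ℚ))) (hS : S.Finite)
    (P : HeightOneSpectrum (𝓞 ℚ) → ι → ℚ[X])
    (ℓ₀ : ℕ) [hℓ₀ : Fact ℓ₀.Prime] (ρ₀ : Reps Γ n ℓ₀) (hρ₀ : Conts ρ₀)
    (hP₀ : ∀ v ∉ S, ¬ Above v ℓ₀ → ∀ i, GoodReduction (restrictTo ρ₀ s) i (w i) v (P v i) ∧
      IntegralRoots c v (P v i))
    (r : ℕ) (hr : ∃ σ, IndependentEigenvalues ρ₀ (s σ) r)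
    (ℓ : ℕ) [hℓ : Fact ℓ.Prime] (ρ : Reps Γ n ℓ) (hρ : Conts ρ)
    (hP : ∀ v ∉ S, ¬ Above v ℓ → ∀ i, GoodReduction (restrictTo ρ s) i (w i) v (P v i))
    (𝔤 : EndSpace n ℓ) (h𝔤 : Motivic ρ 𝔤) (hrank : RankLE 𝔤 r) :
    Semisimple ρ ∧ ∃ 𝔥 : EndSpace n ℓ, KillsTateTensors ρ 𝔥 ∧ ReductiveOfRank 𝔤 𝔥 r := by
  obtain ⟨σ, hσ⟩ := hr
  have hcont : Conts (restrictTo ρ₀ s) := fun i => (hρ₀ i).comp hs
  obtain ⟨v₀, hv₀, hind, -⟩ := exists_indep (restrictTo ρ₀ s) hcont w c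
    (S ∪ {v | Above v ℓ₀} ∪ {v | Above v ℓ})
    ((hS.union (finite_above ℓ₀ hℓ₀.out)).union (finite_above ℓ hℓ.out)) P
    (fun v hv i => hP₀ v (fun h => hv (Or.inl (Or.inl h))) (fun h => hv (Or.inl (Or.inr h))) i)
    σ r hσ Set.univ isOpen_univ (Set.mem_univ _)
  obtain ⟨p₀, hp₀, hpv₀⟩ := exists_prime v₀
  let T : Set ℕ := {p | p.Prime ∧ p ≠ ℓ ∧ ∀ v, Above v p → v ∉ S}
  have hp₀ℓ : p₀ ≠ ℓ := by
    rintro rfl
    exact hv₀ (Or.inr hpv₀)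
  have hp₀T : p₀ ∈ T := ⟨hp₀, hp₀ℓ, fun v hv h => hv₀ (Or.inl (Or.inl (by
    rwa [(above_iff hp₀ hpv₀ v).1 hv] at h)))⟩
  have hTinf : T.Infinite := by
    have h1 : ({p : ℕ | p.Prime} \ ({ℓ} ∪ {p : ℕ | p.Prime ∧ ∃ v ∈ S, (p : 𝓞 ℚ) ∈ v.asIdeal})).Infinite :=
      Nat.infinite_setOf_prime.sdiff ((Set.finite_singleton ℓ).union (finite_below S hS))
    refine h1.mono ?_
    rintro p ⟨hp, hp'⟩
    exact ⟨hp, fun h => hp' (Or.inl h), fun v hv hvS => hp' (Or.inr ⟨hp, v, hvS, hv⟩)⟩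
  have hT3 : 3 ≤ T.encard := by
    rw [hTinf.encard_eq]
    exact le_top
  obtain ⟨𝔥, -, -, h1, h2, h3, h4, h5, h6, -⟩ := semi_main' ρ s hs inputs inputs2 inputs3.rank hρ 𝔤 h𝔤 P T
    hT3 (fun p hp => ⟨hp.1, hp.2.1, fun v hv => unramified hp.1 hv⟩)
    (fun p hp v hv => goodPlace_of (restrictTo ρ s)
      (hP v (hp.2.2 v hv) (notAbove_of_ne hp.1 hℓ.out hp.2.1 hv)))
    hp₀T (independentPlaces_of_one P (fun v => above_iff hp₀ hpv₀ v)) hpv₀ r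
    (independentRoots_range hind) hrank
  exact ⟨h1, 𝔥, h2, h3, h5, h6, h4⟩

end main

end Pool.Agent.R931.IR
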