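import Mathlib
import Pool.Agent.Y114.RM.Final

/-!
# Definitions for the final statement
-/

set_option autoImplicit false

namespace Pool.Agent.R931.IR

open NumberField IsDedekindDomain Polynomial Module Pool.Agent.Y114.TF Pool.Agent.Y114.GF
  Pool.Agent.Y114.MU Pool.Agent.Y114.RM

/-- `z` is an eigenvalue, in the algebraic closure of `ℚ_ℓ`, of `g` on the `i`-th representation. -/
def EigenvalueOf {Γ : Type} [Group Γ] {ι : Type} {n : ι → ℕ} {ℓ : ℕ} [Fact ℓ.Prime]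
    (ρ : Reps Γ n ℓ) (i : ι) (g : Γ) (z : PadicAlgCl ℓ) : Prop := aeval z (ρ i g).charpoly = 0

/-- There are `r` multiplicatively independent numbers among the eigenvalues of `g`. -/
def IndependentEigenvalues {Γ : Type} [Group Γ] {ι : Type} {n : ι → ℕ} {ℓ : ℕ} [Fact ℓ.Prime]
    (ρ : Reps Γ n ℓ) (g : Γ) (r : ℕ) : Prop :=
  ∃ (κ : Fin r → ι) (z : Fin r → PadicAlgCl ℓ), (∀ k, EigenvalueOf ρ (κ k) g (z k)) ∧
    ∀ e : Fin r → ℤ, ∏ k, z k ^ e k = 1 → e = 0

/-- The numbers `(q v) ^ c * a` for the roots `a` of `P` are algebraic integers. -/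
def IntegralRoots (c : ℕ) (v : HeightOneSpectrum (𝓞 ℚ)) (P : ℚ[X]) : Prop :=
  ∀ a : ℂ, aeval a P = 0 → IsIntegral ℤ ((q v : ℂ) ^ c * a)

end Pool.Agent.R931.IR
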