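import Mathlib

/-!
# Multiplicatively independent eigenvalues of nearby elements
-/

set_option autoImplicit false

namespace Pool.Agent.R931.IR

open Polynomial Topology Module

variable {ℓ : ℕ} [Fact ℓ.Prime]

/-- `z` is a root of the polynomial with coefficients in `ℚ_ℓ` -/
def IsRootOf (f : ℚ_[ℓ][X]) (z : PadicAlgCl ℓ) : Prop := aeval z f = 0

theorem eval_eq_det {n : ℕ} (A : End ℚ_[ℓ] (Fin n → ℚ_[ℓ])) (z : PadicAlgCl ℓ) :
    aeval z A.charpoly = (Matrix.scalar (Fin n) z -
      (LinearMap.toMatrix' A).map (algebraMap ℚ_[ℓ] (PadicAlgCl ℓ))).det := by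
  have h1 : A.charpoly = (LinearMap.toMatrix' A).charpoly := by
    rw [← LinearMap.charpoly_toMatrix A (Pi.basisFun ℚ_[ℓ] (Fin n)), LinearMap.toMatrix_eq_toMatrix']
  rw [h1, ← Matrix.eval_charpoly, Matrix.charpoly_map, eval_map, aeval_def]

/-- close roots -/
theorem exists_root_near {n : ℕ} (A : End ℚ_[ℓ] (Fin n → ℚ_[ℓ])) (z : PadicAlgCl ℓ) {ε : ℝ}
    (hε : 0 < ε) (h : ‖aeval z A.charpoly‖ < ε ^ n) :
    ∃ y : PadicAlgCl ℓ, IsRootOf A.charpoly y ∧ ‖y - z‖ < ε := by
  by_contra hcon
  push Not at hcon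
  set f : (PadicAlgCl ℓ)[X] := A.charpoly.map (algebraMap ℚ_[ℓ] (PadicAlgCl ℓ)) with hf
  have hmonic : f.Monic := (LinearMap.charpoly_monic A).map _
  have hsplit : f.Splits := IsAlgClosed.splits _
  have hcard : Multiset.card f.roots = n := by
    rw [← hsplit.natDegree_eq_card_roots, hf, natDegree_map, LinearMap.charpoly_natDegree,
      Module.finrank_fin_fun]
  have h1 : aeval z A.charpoly = (f.roots.map fun y => z - y).prod := by
    have h2 := hsplit.eq_prod_roots_of_monic hmonic
    have h3 : aeval z A.charpoly = f.eval z := by rw [hf, eval_map, aeval_def]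
    rw [h3]
    conv_lhs => rw [h2]
    rw [eval_multiset_prod, Multiset.map_map]
    congr 1
    exact Multiset.map_congr rfl fun y _ => by simp
  have h2 : ∀ s : Multiset (PadicAlgCl ℓ), (∀ y ∈ s, ε ≤ ‖y - z‖) →
      ε ^ Multiset.card s ≤ ‖(s.map fun y => z - y).prod‖ := by
    intro s
    induction s using Multiset.induction_on with
    | empty => simp
    | cons a s ih =>
      intro hs
      rw [Multiset.map_cons, Multiset.prod_cons, norm_mul, Multiset.card_cons, pow_succ']
      apply mul_le_mul _ (ih fun y hy => hs y (Multiset.mem_cons_of_mem hy)) (by positivity)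
        (norm_nonneg _)
      rw [norm_sub_rev]
      exact hs a (Multiset.mem_cons_self a s)
  have h3 := h2 f.roots fun y hy => by
    apply hcon
    have h4 := (mem_roots hmonic.ne_zero).1 hy
    rw [IsRoot, hf, eval_map] at h4
    exact h4
  rw [hcard, ← h1] at h3
  linarith

/-- The relations in a finite set are violated by all tuples near an independent one. -/
theorem exists_radius {r : ℕ} (z : Fin r → PadicAlgCl ℓ) (hz : ∀ k, z k ≠ 0)
    (hind : ∀ e : Fin r → ℤ, ∏ k, z k ^ e k = 1 → e = 0) (E : Finset (Fin r → ℤ))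
    (h0 : (0 : Fin r → ℤ) ∉ E) {M : ℕ} (hM : 0 < M) :
    ∃ ε : ℝ, 0 < ε ∧ ∀ y : Fin r → PadicAlgCl ℓ, (∀ k, ‖y k - z k‖ < ε) →
      ∀ e ∈ E, (∏ k, y k ^ e k) ^ M ≠ 1 := by
  have h1 : ∀ e ∈ E, ∀ᶠ y in 𝓝 z, (∏ k, y k ^ e k) ^ M ≠ 1 := by
    intro e he
    have hne : (∏ k, z k ^ e k) ^ M ≠ 1 := by
      intro h
      have h2 : ∏ k, z k ^ (e k * M) = 1 := by
        rw [← h, ← Finset.prod_pow]
        exact Finset.prod_congr rfl fun k _ => by rw [zpow_mul, zpow_natCast]
      have h3 := hind _ h2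
      apply h0
      have h4 : e = 0 := by
        funext k
        have h5 := congrFun h3 k
        have h6 : e k * M = 0 := h5
        rcases mul_eq_zero.1 h6 with h | h
        · exact h
        · exact absurd (by exact_mod_cast h) hM.ne'
      rwa [← h4]
    have hc : ContinuousAt (fun y : Fin r → PadicAlgCl ℓ => (∏ k, y k ^ e k) ^ M) z := by
      apply ContinuousAt.pow
      apply tendsto_finsetProd
      intro k _
      exact ((continuous_apply k).continuousAt).zpow₀ (e k) (Or.inl (hz k))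
    exact hc.eventually_ne hne
  have h2 : ∀ᶠ y in 𝓝 z, ∀ e ∈ E, (∏ k, y k ^ e k) ^ M ≠ 1 := by
    rw [Filter.eventually_all_finset]
    exact h1
  obtain ⟨ε, hε, h3⟩ := Metric.eventually_nhds_iff.1 h2
  refine ⟨ε, hε, fun y hy => h3 ?_⟩
  rw [dist_pi_lt_iff hε]
  intro k
  rw [dist_eq_norm]
  exact hy k

end Pool.Agent.R931.IR
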